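import Pool.Agent.MP_2a6d4e_co.Main

/-!
# Siblings of countable graphs without infinite indecomposable induced subgraphs

A countable graph all of whose indecomposable induced subgraphs are finite (for instance a
countable cograph) has `1`, `ℵ₀` or `2 ^ ℵ₀` siblings.
-/

namespace Pool.Agent.Results.MP_2a6d4e_co.FinitePrimes

open Set Cardinal Pool.Agent.MP_2a6d4e_co

/-- `A` is a module of `G`: vertices outside `A` do not distinguish the vertices of `A`. -/
def IsModule {V : Type} (G : SimpleGraph V) (A : Set V) : Prop :=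
  ∀ a ∈ A, ∀ a' ∈ A, ∀ b, b ∉ A → (G.Adj a b ↔ G.Adj a' b)

/-- Every module of `G` is trivial. -/
def Indecomposable {V : Type} (G : SimpleGraph V) : Prop :=
  ∀ A : Set V, IsModule G A → A = ∅ ∨ (∃ a, A = {a}) ∨ A = Set.univ

/-- A sibling of `G`: a graph `H` such that `G` and `H` embed in each other as induced
subgraphs. -/
structure Sibling {V : Type} (G : SimpleGraph V) : Type 1 where
  W : Type
  H : SimpleGraph W
  embeds : Nonempty (G ↪g H)
  embeds' : Nonempty (H ↪g G)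

/-- The number of isomorphism classes of siblings of `G`. -/
noncomputable def siblingCount {V : Type} (G : SimpleGraph V) : Cardinal.{1} :=
  #(Quot fun A B : Sibling G => Nonempty (A.H ≃g B.H))

open Classical in
noncomputable def toGr {V : Type} (G : SimpleGraph V) : Gr V where
  c a b := decide (G.Adj a b)
  symm a b := by simp [G.adj_comm]
  irr a := by simp

theorem c_eq {V : Type} (G : SimpleGraph V) (a b a' b' : V) :
    (toGr G).c a b = (toGr G).c a' b' ↔ (G.Adj a b ↔ G.Adj a' b') := by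
  simp [toGr]

theorem iso_iff {V : Type} (G : SimpleGraph V) (A B : Set V) :
    (toGr G).Iso A B ↔ Nonempty (G.induce A ≃g G.induce B) := by
  classical
  constructor
  · rintro ⟨f, hf⟩
    exact ⟨⟨BijOn.equiv f ⟨hf.1.1, hf.1.2.1, hf.2⟩, fun {a b} =>
      (c_eq G _ _ _ _).1 (hf.1.c a.2 b.2)⟩⟩
  · rintro ⟨φ⟩
    refine ⟨fun v => if h : v ∈ A then φ ⟨v, h⟩ else v, ⟨fun v hv => ?_, fun v hv u hu h => ?_,
      fun v hv u hu => ?_⟩, fun v hv => ⟨φ.symm ⟨v, hv⟩, (φ.symm ⟨v, hv⟩).2, ?_⟩⟩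
    · simp [hv]
    · simp only [hv, hu, dif_pos] at h
      exact congrArg Subtype.val (φ.injective (Subtype.ext h))
    · simp only [hv, hu, dif_pos]
      exact (c_eq G _ _ _ _).2 (φ.map_rel_iff (a := ⟨v, hv⟩) (b := ⟨u, hu⟩))
    · simp

theorem count {V : Type} [Countable V] (G : SimpleGraph V) (hF : (toGr G).FinP) :
    siblingCount G = 1 ∨ siblingCount G = ℵ₀ ∨ siblingCount G = 𝔠 := by
  have e : ∀ A : Sibling G, A.H ≃g G.induce (range A.embeds'.some) := fun A =>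
    A.embeds'.some.isoInduceRange
  have eqv : Equivalence fun A B : Sibling G => Nonempty (A.H ≃g B.H) :=
    ⟨fun _ => ⟨SimpleGraph.Iso.refl⟩, fun ⟨φ⟩ => ⟨φ.symm⟩, fun ⟨φ⟩ ⟨ψ⟩ => ⟨φ.trans ψ⟩⟩
  refine Gr.trichotomy hF (fun x => range x.out.embeds'.some) (fun x => ⟨?_, Gr.le_of_sub
    (subset_univ _)⟩) (fun x y h => ?_) fun R hR => ?_
  · let j := x.out.embeds'.some.comp x.out.embeds.some
    exact ⟨j, fun v _ => ⟨_, rfl⟩, j.injective.injOn, fun a _ b _ =>
      (c_eq G _ _ _ _).2 j.map_rel_iff⟩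
  · obtain ⟨φ⟩ := (iso_iff G _ _).1 h
    rw [← x.out_eq, ← y.out_eq]
    exact Quot.sound ⟨(e _).trans (φ.trans (e _).symm)⟩
  · obtain ⟨f, hf⟩ := hR.1
    let A : Sibling G := ⟨R, G.induce R, ⟨⟨⟨fun v => ⟨f v, hf.maps trivial⟩, fun a b h =>
      hf.inj trivial trivial (congrArg Subtype.val h)⟩, fun {a b} =>
        (c_eq G _ _ _ _).1 (hf.c trivial trivial)⟩⟩, ⟨SimpleGraph.Embedding.induce R⟩⟩
    refine ⟨Quot.mk _ A, (iso_iff G _ _).2 ?_⟩
    obtain ⟨φ⟩ := (eqv.eqvGen_iff.1 (Quot.eqvGen_exact (Quot.out_eq (Quot.mk _ A))) :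
      Nonempty (_ ≃g A.H))
    exact ⟨φ.symm.trans (e _)⟩

theorem result (V : Type) [Countable V] (G : SimpleGraph V)
    (h : ∀ S : Set V, Indecomposable (G.induce S) → S.Finite) :
    siblingCount G = 1 ∨ siblingCount G = ℵ₀ ∨ siblingCount G = 𝔠 := by
  refine count G fun T hT => h T fun A hA => ?_
  rcases hT (Subtype.val '' A) ⟨by rintro _ ⟨a, -, rfl⟩; exact a.2, by
    rintro _ ⟨a, ha, rfl⟩ _ ⟨a', ha', rfl⟩ b hb hb'
    exact (c_eq G _ _ _ _).2 (hA a ha a' ha' ⟨b, hb⟩ fun h => hb' ⟨_, h, rfl⟩)⟩ with h1 | h1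
  · rcases (subsingleton_of_image Subtype.val_injective A h1).eq_empty_or_singleton with h2 | h2
    exacts [Or.inl h2, Or.inr (Or.inl h2)]
  · refine Or.inr (Or.inr (eq_univ_of_forall fun v => ?_))
    obtain ⟨a, ha, h2⟩ := h1.symm.subset v.2
    rwa [← Subtype.ext h2]

end Pool.Agent.Results.MP_2a6d4e_co.FinitePrimes
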