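import Mathlib
import Pool.Agent.MP_2a6d4e_co.h30.Count

/-!
# A countable graph with exactly two siblings whose indecomposable induced subgraphs are tame

There is a countable graph with exactly two siblings, all of whose indecomposable induced
subgraphs have `1`, `ℵ₀` or `2 ^ ℵ₀` siblings.
-/

namespace Pool.Agent.Results.MP_2a6d4e_co.TwoSiblings

open Set Cardinal Pool.Agent.MP_2a6d4e_co Pool.Agent.MP_2a6d4e_co.h30

/-- `A` is a module of `G`: vertices outside `A` do not distinguish the vertices of `A`. -/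
def IsModule {V : Type} (G : SimpleGraph V) (A : Set V) : Prop :=
  ∀ a ∈ A, ∀ a' ∈ A, ∀ b, b ∉ A → (G.Adj a b ↔ G.Adj a' b) ∧ (G.Adj b a ↔ G.Adj b a')

/-- Every module of `G` is trivial. -/
def Indecomposable {V : Type} (G : SimpleGraph V) : Prop :=
  ∀ A : Set V, IsModule G A → A = ∅ ∨ (∃ a, A = {a}) ∨ A = Set.univ

/-- A sibling of `G`: a graph `H` such that `G` and `H` embed in each other as induced
subgraphs. -/
structure Sibling {V : Type} (G : SimpleGraph V) : Type 1 where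
  W : Type
  H : SimpleGraph W
  embeds : Nonempty (G ↪g H)
  embeds' : Nonempty (H ↪g G)

/-- The number of isomorphism classes of siblings of `G`. -/
noncomputable def siblingCount {V : Type} (G : SimpleGraph V) : Cardinal.{1} :=
  #(Quot fun A B : Sibling G => Nonempty (A.H ≃g B.H))

theorem classify {V W : Type} {G : SimpleGraph W} {g : Gr V} {e : W → V} (h : Real G g e) :
    ∃ ρ : (Quot fun A B : Sibling G => Nonempty (A.H ≃g B.H)) → Set V, Cls g (range e) ρ := by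
  have eqv : Equivalence fun A B : Sibling G => Nonempty (A.H ≃g B.H) :=
    ⟨fun _ => ⟨SimpleGraph.Iso.refl⟩, fun ⟨φ⟩ => ⟨φ.symm⟩, fun ⟨φ⟩ ⟨ψ⟩ => ⟨φ.trans ψ⟩⟩
  have r := fun A : Sibling G => h.comp A.embeds'.some
  refine ⟨fun x => range (e ∘ x.out.embeds'.some), fun x => range_comp_subset_range _ _,
    fun x => ⟨?_, Gr.le_of_sub (range_comp_subset_range _ _)⟩, fun x y i => ?_, fun R hR => ?_⟩
  · exact (h.emb (r _) x.out.embeds.some).imp fun _ k => k.1
  · rw [← x.out_eq, ← y.out_eq]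
    exact Quot.sound (((r _).iso_iff (r _)).1 i)
  · obtain ⟨⟨f, hf⟩, f', hf'⟩ := hR
    rw [← Subtype.range_val (s := R)] at hf hf' ⊢
    obtain ⟨φ, -⟩ := h.of_emb (real_ind g R) hf
    obtain ⟨φ', -⟩ := (real_ind g R).of_emb h hf'
    let A : Sibling G := ⟨R, ind g R, ⟨φ⟩, ⟨φ'⟩⟩
    refine ⟨Quot.mk _ A, ((real_ind g R).iso_iff (r _)).2 ?_⟩
    exact eqv.symm (eqv.eqvGen_iff.1 (Quot.eqvGen_exact (Quot.out_eq (Quot.mk _ A))))

theorem prim_of {V W : Type} {G : SimpleGraph W} {g : Gr V} {e : W → V} (h : Real G g e)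
    (hG : Indecomposable G) : g.Prim (range e) := by
  intro X hX
  have k : ∀ a a' b, e a ∈ X → e a' ∈ X → e b ∉ X → (G.Adj a b ↔ G.Adj a' b) :=
    fun a a' b ha ha' hb => by rw [← h.2, ← h.2, hX.eq ha ha' ⟨b, rfl⟩ hb]
  have hX' : X = e '' (e ⁻¹' X) := (image_preimage_eq_of_subset hX.sub).symm
  rcases hG (e ⁻¹' X) fun a ha a' ha' b hb =>
    ⟨k a a' b ha ha' hb, by rw [G.adj_comm, G.adj_comm b]; exact k a a' b ha ha' hb⟩ with
    h1 | ⟨a, h1⟩ | h1 <;> rw [hX', h1]
  · exact Or.inl (by simp)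
  · exact Or.inl (by simp)
  · exact Or.inr image_univ

theorem result : ∃ (V : Type) (_ : Countable V) (G : SimpleGraph V),
    (∀ S : Set V, Indecomposable (G.induce S) → siblingCount (G.induce S) = 1 ∨
      siblingCount (G.induce S) = ℵ₀ ∨ siblingCount (G.induce S) = 𝔠) ∧
    siblingCount G = 2 := by
  obtain ⟨D⟩ := data_exists
  refine ⟨D.Q D.A, inferInstance, ind D.G (D.Q D.A), fun S hS => ?_, ?_⟩
  · have r := (real_ind D.G (D.Q D.A)).comp (SimpleGraph.Embedding.induce S)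
    set e := Subtype.val ∘ (SimpleGraph.Embedding.induce (G := ind D.G (D.Q D.A)) S)
    by_cases hf : (range e).Finite
    · obtain ⟨ρ, hρ⟩ := classify r
      exact Or.inl (hρ.one hf)
    obtain ⟨h1, h2, h3⟩ := Data.prime_sub (B := D.A) (by rintro _ ⟨a, rfl⟩; exact a.1.2) hf
      (prim_of r hS)
    have r' : Real _ D.P (Prod.fst ∘ e) := ⟨fun a b h => r.1 (h1 ⟨a, rfl⟩ ⟨b, rfl⟩ h), fun a b => by
      rw [← r.2, h2 _ ⟨a, rfl⟩ _ ⟨b, rfl⟩]; rfl⟩
    obtain ⟨ρ, hρ⟩ := classify r'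
    rw [range_comp] at hρ
    rcases Data.triP (by rintro _ ⟨_, ⟨a, rfl⟩, rfl⟩; exact a.1.2.1) ((infinite_image_iff h1).2 hf) h3
      with h | h
    exacts [Or.inr (Or.inr (hρ.cont h)), Or.inr (Or.inl (hρ.aleph h.1 h.2))]
  · obtain ⟨ρ, hρ⟩ := classify (real_ind D.G (D.Q D.A))
    rw [Subtype.range_val] at hρ
    exact hρ.two Data.two_classes.1 Data.two_classes.2.1 Data.two_classes.2.2

end Pool.Agent.Results.MP_2a6d4e_co.TwoSiblings
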